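import Pool.Agent.H20.PNT.Tauber

/-!
# The prime number theorem, also in arithmetic progressions
-/

open MeasureTheory Filter Topology Complex Set ArithmeticFunction Chebyshev

namespace H20.PNT

noncomputable section

/-- convert the conclusion of `wiener_ikehara`. -/
lemma tendsto_S_div {f : ℕ → ℝ} {A : ℝ} (h : Tendsto (av f) atTop (𝓝 A)) :
    Tendsto (fun x : ℝ => S f x / x) atTop (𝓝 A) := by
  have h1 := h.comp Real.tendsto_log_atTop
  refine h1.congr' ?_
  filter_upwards [eventually_gt_atTop 0] with x hx
  simp only [Function.comp, av]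
  rw [Real.exp_neg, Real.exp_log hx, div_eq_mul_inv]

lemma S_vonMangoldt (x : ℝ) : S (fun n => vonMangoldt n) x = ψ x := by
  rw [psi_eq_sum_Icc]
  unfold S
  rw [← Finset.insert_Icc_add_one_left_eq_Icc (Nat.zero_le _), Finset.sum_insert (by simp)]
  simp

lemma residue_bound {q : ℕ} (a : ZMod q) (n : ℕ) :
    S (vonMangoldt.residueClass a) n ≤ (Real.log 4 + 4) * n := by
  have h1 : S (vonMangoldt.residueClass a) n ≤ S (fun n => vonMangoldt n) n := by
    unfold S
    exact Finset.sum_le_sum fun i _ => vonMangoldt.residueClass_le a i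
  rw [S_vonMangoldt] at h1
  exact h1.trans (psi_le_const_mul_self (Nat.cast_nonneg n))

/-- **Prime number theorem in arithmetic progressions**, von Mangoldt form. -/
theorem pnt_ap {q : ℕ} [NeZero q] {a : ZMod q} (ha : IsUnit a) :
    Tendsto (fun x : ℝ => S (vonMangoldt.residueClass a) x / x) atTop (𝓝 (q.totient : ℝ)⁻¹) := by
  apply tendsto_S_div
  refine wiener_ikehara (fun n => vonMangoldt.residueClass_nonneg a n)
    (C := Real.log 4 + 4) (by positivity) (residue_bound a)
    (G := vonMangoldt.LFunctionResidueClassAux a) ?_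
    (vonMangoldt.continuousOn_LFunctionResidueClassAux a)
  intro s hs
  have := vonMangoldt.eqOn_LFunctionResidueClassAux ha hs
  rw [this]
  push_cast
  rfl

/-- **Prime number theorem**: `ψ(x) ~ x`. -/
theorem psi_tendsto : Tendsto (fun x : ℝ => ψ x / x) atTop (𝓝 1) := by
  have h := pnt_ap (q := 1) (a := 1) isUnit_one
  simp only [Nat.totient_one, Nat.cast_one, inv_one] at h
  refine h.congr fun x => ?_
  rw [← S_vonMangoldt]
  congr 1
  unfold S
  refine Finset.sum_congr rfl fun k _ => ?_
  simp only [vonMangoldt.residueClass]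
  rw [Set.indicator_of_mem]
  exact Subsingleton.elim _ _

/-- `θ(x) ~ x`. -/
theorem theta_tendsto : Tendsto (fun x : ℝ => θ x / x) atTop (𝓝 1) := by
  have h1 : Tendsto (fun x : ℝ => (ψ x - θ x) / x) atTop (𝓝 0) := by
    have h2 : (ψ - θ) =o[atTop] (fun x : ℝ => x) := by
      refine isBigO_psi_sub_theta_sqrt.trans_isLittleO ?_
      rw [Asymptotics.isLittleO_iff_tendsto' (by
        filter_upwards [eventually_gt_atTop 0] with x hx h0
        exact absurd h0 hx.ne')]
      have h3 : Tendsto (fun x : ℝ => (Real.sqrt x)⁻¹) atTop (𝓝 0) :=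
        Real.tendsto_sqrt_atTop.inv_tendsto_atTop
      refine h3.congr' ?_
      filter_upwards [eventually_gt_atTop 0] with x hx
      have h4 := Real.mul_self_sqrt hx.le
      have h5 := Real.sqrt_pos.2 hx
      rw [inv_eq_one_div, div_eq_div_iff h5.ne' hx.ne', one_mul, h4]
    exact h2.tendsto_div_nhds_zero
  have h3 := psi_tendsto.sub h1
  rw [sub_zero] at h3
  refine h3.congr fun x => ?_
  rw [← sub_div]; congr 1; ring

/-- **Prime number theorem**: `π(x) ~ x / log x`. -/
theorem primeCounting_tendsto :
    Tendsto (fun x : ℝ => (Nat.primeCounting ⌊x⌋₊ : ℝ) * Real.log x / x) atTop (𝓝 1) := by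
  have h1 : Tendsto (fun x : ℝ => ((Nat.primeCounting ⌊x⌋₊ : ℝ) - θ x / Real.log x) /
      (x / Real.log x)) atTop (𝓝 0) := by
    have h2 : (fun x : ℝ => (Nat.primeCounting ⌊x⌋₊ : ℝ) - θ x / Real.log x) =o[atTop]
        (fun x : ℝ => x / Real.log x) := by
      refine primeCounting_sub_theta_div_log_isBigO.trans_isLittleO ?_
      rw [Asymptotics.isLittleO_iff_tendsto' (by
        filter_upwards [eventually_gt_atTop 1] with x hx h0
        have := Real.log_pos hx
        have : 0 < x / Real.log x := by positivity
        exact absurd h0 this.ne')]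
      refine Real.tendsto_log_atTop.inv_tendsto_atTop.congr' ?_
      filter_upwards [eventually_gt_atTop 1] with x hx
      have := Real.log_pos hx
      simp only [Pi.inv_apply]
      field_simp
    exact h2.tendsto_div_nhds_zero
  have h2 := h1.add theta_tendsto
  rw [zero_add] at h2
  refine h2.congr' ?_
  filter_upwards [eventually_gt_atTop 1] with x hx
  have := Real.log_pos hx
  field_simp
  ring

end

end H20.PNT
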