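import Mathlib

/-!
# Wiener–Ikehara theorem, part 2: the Fejér kernel
-/

open MeasureTheory Filter Topology Complex Set

namespace H20.PNT

noncomputable section

/-- the Fejér kernel -/
def K (u : ℝ) : ℝ := if u = 0 then 1 else 2 * (1 - Real.cos u) / u ^ 2

lemma K_nonneg (u : ℝ) : 0 ≤ K u := by
  unfold K
  split_ifs
  · exact zero_le_one
  · have := Real.cos_le_one u
    positivity [sub_nonneg.2 this]

lemma K_le_one (u : ℝ) : K u ≤ 1 := by
  unfold K
  split_ifs with h
  · exact le_rfl
  · have h1 := Real.one_sub_sq_div_two_le_cos (x := u)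
    have h2 : 0 < u ^ 2 := by positivity
    rw [div_le_one h2]
    linarith

lemma K_le (u : ℝ) : K u ≤ 5 * (1 + u ^ 2)⁻¹ := by
  rcases le_total (u ^ 2) 4 with h | h
  · refine (K_le_one u).trans ?_
    have h2 : 0 < 1 + u ^ 2 := by positivity
    rw [← div_eq_mul_inv, le_div_iff₀ h2]
    linarith
  · unfold K
    have hu : u ≠ 0 := by rintro rfl; norm_num at h
    rw [if_neg hu]
    have h2 : 0 < 1 + u ^ 2 := by positivity
    have h3 : 0 < u ^ 2 := by positivity
    rw [← div_eq_mul_inv, div_le_div_iff₀ h3 h2]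
    have h4 := Real.neg_one_le_cos u
    nlinarith

lemma K_measurable : Measurable K := by
  unfold K
  refine Measurable.ite (measurableSet_singleton 0) measurable_const ?_
  fun_prop

lemma K_integrable : Integrable K := by
  refine Integrable.mono' (integrable_inv_one_add_sq.const_mul 5) K_measurable.aestronglyMeasurable
    (Eventually.of_forall fun u => ?_)
  rw [Real.norm_of_nonneg (K_nonneg u)]
  exact K_le u

lemma K_even (u : ℝ) : K (-u) = K u := by
  unfold K; simp

lemma K_pos {u : ℝ} (h0 : 0 < u) (h1 : u < 1) : 0 < K u := by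
  unfold K
  rw [if_neg h0.ne']
  have : Real.cos u < 1 := by
    have := Real.cos_lt_cos_of_nonneg_of_le_pi_div_two (x := 0) (y := u) le_rfl
      (by linarith [Real.pi_gt_three]) h0
    simpa using this
  have h2 : 0 < 1 - Real.cos u := by linarith
  positivity

lemma K_integral_pos : 0 < ∫ u, K u := by
  rw [integral_pos_iff_support_of_nonneg K_nonneg K_integrable]
  have h1 : Ioo (0 : ℝ) 1 ⊆ Function.support K := by
    intro u hu
    exact (K_pos hu.1 hu.2).ne'
  refine lt_of_lt_of_le ?_ (measure_mono h1)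
  simp

/-- The Fourier transform of the triangle function. -/
lemma tri_fourier (u : ℝ) :
    ∫ y in (-1 : ℝ)..1, ((1 - |y| : ℝ) : ℂ) * Complex.exp (I * (y * u)) = (K u : ℂ) := by
  have hint : ∀ a b : ℝ, IntervalIntegrable
      (fun y : ℝ => ((1 - |y| : ℝ) : ℂ) * Complex.exp (I * (y * u))) volume a b := by
    intro a b
    apply Continuous.intervalIntegrable
    fun_prop
  rw [← intervalIntegral.integral_add_adjacent_intervals (hint (-1) 0) (hint 0 1)]
  by_cases hu : u = 0
  · subst hu
    have e1 : ∫ y in (-1 : ℝ)..0, ((1 - |y| : ℝ) : ℂ) * Complex.exp (I * (y * (0 : ℝ))) =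
        ∫ y in (-1 : ℝ)..0, ((1 + y : ℝ) : ℂ) := by
      apply intervalIntegral.integral_congr
      intro y hy
      rw [uIcc_of_le (by norm_num)] at hy
      simp [abs_of_nonpos hy.2]
    have e2 : ∫ y in (0 : ℝ)..1, ((1 - |y| : ℝ) : ℂ) * Complex.exp (I * (y * (0 : ℝ))) =
        ∫ y in (0 : ℝ)..1, ((1 - y : ℝ) : ℂ) := by
      apply intervalIntegral.integral_congr
      intro y hy
      rw [uIcc_of_le (by norm_num)] at hy
      simp [abs_of_nonneg hy.1]
    have g1 : ∫ x in (-1:ℝ)..0, (1 + x) = 1/2 := by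
      rw [intervalIntegral.integral_add (by simp) (by simp)]
      simp; norm_num
    have g2 : ∫ x in (0:ℝ)..1, (1 - x) = 1/2 := by
      rw [intervalIntegral.integral_sub (by simp) (by simp)]
      simp; norm_num
    rw [e1, e2, intervalIntegral.integral_ofReal, intervalIntegral.integral_ofReal, g1, g2]
    simp [K]
    norm_num
  · have e1 : ∫ y in (-1 : ℝ)..0, ((1 - |y| : ℝ) : ℂ) * Complex.exp (I * (y * u)) =
        ∫ y in (-1 : ℝ)..0, (1 + y : ℂ) * Complex.exp (I * (y * u)) := by
      apply intervalIntegral.integral_congr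
      intro y hy
      rw [uIcc_of_le (by norm_num)] at hy
      simp [abs_of_nonpos hy.2]
    have e2 : ∫ y in (0 : ℝ)..1, ((1 - |y| : ℝ) : ℂ) * Complex.exp (I * (y * u)) =
        ∫ y in (0 : ℝ)..1, (1 - y : ℂ) * Complex.exp (I * (y * u)) := by
      apply intervalIntegral.integral_congr
      intro y hy
      rw [uIcc_of_le (by norm_num)] at hy
      simp [abs_of_nonneg hy.1]
    rw [e1, e2]
    have huc : (u : ℂ) ≠ 0 := by exact_mod_cast hu
    have d0 : ∀ y : ℝ, HasDerivAt (fun y : ℝ => Complex.exp (I * (y * u)))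
        (Complex.exp (I * (y * u)) * (I * u)) y := by
      intro y
      have h1 : HasDerivAt (fun y : ℝ => I * ((y : ℂ) * u)) (I * u) y := by
        have := ((hasDerivAt_id y).ofReal_comp.mul_const (u : ℂ)).const_mul I
        simpa using this
      exact h1.cexp
    have d1 : ∀ y : ℝ, HasDerivAt (fun y : ℝ => (1 + (y : ℂ))) 1 y := by
      intro y
      have := ((hasDerivAt_id y).ofReal_comp).const_add (1 : ℂ)
      simpa using this
    have d2 : ∀ y : ℝ, HasDerivAt (fun y : ℝ => (1 - (y : ℂ))) (-1) y := by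
      intro y
      have := ((hasDerivAt_id y).ofReal_comp).const_sub (1 : ℂ)
      simpa using this
    have f1 : ∫ y in (-1 : ℝ)..0, (1 + y : ℂ) * Complex.exp (I * (y * u)) =
        ((1 + (0 : ℝ)) * Complex.exp (I * ((0 : ℝ) * u)) / (I * u) -
          Complex.exp (I * ((0 : ℝ) * u)) / (I * u) ^ 2) -
        ((1 + (-1 : ℝ)) * Complex.exp (I * ((-1 : ℝ) * u)) / (I * u) -
          Complex.exp (I * ((-1 : ℝ) * u)) / (I * u) ^ 2) := by
      apply intervalIntegral.integral_eq_sub_of_hasDerivAt
        (f := fun y : ℝ => (1 + (y : ℂ)) * Complex.exp (I * (y * u)) / (I * u) -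
          Complex.exp (I * (y * u)) / (I * u) ^ 2)
      · intro y _
        have h := (((d1 y).mul (d0 y)).div_const (I * u)).sub ((d0 y).div_const ((I * u) ^ 2))
        refine h.congr_deriv ?_
        have hI : I * (u : ℂ) ≠ 0 := mul_ne_zero I_ne_zero huc
        field_simp
        ring
      · apply Continuous.intervalIntegrable
        fun_prop
    have f2 : ∫ y in (0 : ℝ)..1, (1 - y : ℂ) * Complex.exp (I * (y * u)) =
        ((1 - (1 : ℝ)) * Complex.exp (I * ((1 : ℝ) * u)) / (I * u) +
          Complex.exp (I * ((1 : ℝ) * u)) / (I * u) ^ 2) -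
        ((1 - (0 : ℝ)) * Complex.exp (I * ((0 : ℝ) * u)) / (I * u) +
          Complex.exp (I * ((0 : ℝ) * u)) / (I * u) ^ 2) := by
      apply intervalIntegral.integral_eq_sub_of_hasDerivAt
        (f := fun y : ℝ => (1 - (y : ℂ)) * Complex.exp (I * (y * u)) / (I * u) +
          Complex.exp (I * (y * u)) / (I * u) ^ 2)
      · intro y _
        have h := (((d2 y).mul (d0 y)).div_const (I * u)).add ((d0 y).div_const ((I * u) ^ 2))
        refine h.congr_deriv ?_
        have hI : I * (u : ℂ) ≠ 0 := mul_ne_zero I_ne_zero huc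
        field_simp
        ring
      · apply Continuous.intervalIntegrable
        fun_prop
    rw [f1, f2]
    unfold K
    rw [if_neg hu]
    push_cast
    rw [Complex.cos]
    have hI : (I * (u : ℂ)) ^ 2 = - (u : ℂ) ^ 2 := by
      rw [mul_pow, I_sq]; ring
    rw [hI]
    have e3 : Complex.exp (I * (-1 * (u : ℂ))) = Complex.exp (-(u : ℂ) * I) := by
      congr 1; ring
    have e4 : Complex.exp (I * (1 * (u : ℂ))) = Complex.exp ((u : ℂ) * I) := by
      congr 1; ring
    rw [e3, e4]
    simp only [zero_mul, mul_zero, Complex.exp_zero]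
    field_simp
    ring

end

end H20.PNT
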