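import Pool.Agent.H20.PNT.Laplace
import Pool.Agent.H20.PNT.Kernel

/-!
# Wiener–Ikehara theorem, part 3: the main identity
-/

open MeasureTheory Filter Topology Complex Set

namespace H20.PNT

noncomputable section

/-- Fubini identity for `σ > 0`. -/
lemma fubini_id {f : ℕ → ℝ} (hf : ∀ n, 0 ≤ f n) {C : ℝ} (hC0 : 0 ≤ C)
    (hC : ∀ n : ℕ, S f n ≤ C * n) {A : ℝ} {G : ℂ → ℂ}
    (hG : ∀ s : ℂ, 1 < s.re → G s = LSeries (fun n => (f n : ℂ)) s - A / (s - 1))
    {σ : ℝ} (hσ : 0 < σ) (lam T : ℝ) :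
    ∫ y in Ioc (-1 : ℝ) 1, ((1 - |y| : ℝ) : ℂ) * Complex.exp (I * (y * (lam * T))) *
        ((G (1 + (σ + I * (lam * y))) - A) / (1 + (σ + I * (lam * y)))) =
      ((∫ u in Ioi (0 : ℝ), (av f u - A) * Real.exp (-(σ * u)) * K (lam * (T - u)) : ℝ) : ℂ) := by
  have hz : ∀ y : ℝ, 0 < ((σ : ℂ) + I * (lam * y)).re := by
    intro y; simpa using hσ
  have e1 : ∀ y : ℝ, ((1 - |y| : ℝ) : ℂ) * Complex.exp (I * (y * (lam * T))) *
        ((G (1 + (σ + I * (lam * y))) - A) / (1 + (σ + I * (lam * y)))) =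
      ∫ u in Ioi (0 : ℝ), ((1 - |y| : ℝ) : ℂ) * Complex.exp (I * (y * (lam * T))) *
        (((av f u : ℂ) - A) * Complex.exp (-((σ + I * (lam * y)) * u))) := by
    intro y
    rw [← laplace_sub hf hC0 hC hG (hz y), ← integral_const_mul]
  simp_rw [e1]
  rw [integral_integral_swap]
  · rw [← integral_complex_ofReal]
    refine setIntegral_congr_fun measurableSet_Ioi fun u _ => ?_
    have e2 : ∀ y : ℝ, ((1 - |y| : ℝ) : ℂ) * Complex.exp (I * (y * (lam * T))) *
        (((av f u : ℂ) - A) * Complex.exp (-((σ + I * (lam * y)) * u))) =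
        (((av f u : ℂ) - A) * Complex.exp (-(σ * u))) *
          (((1 - |y| : ℝ) : ℂ) * Complex.exp (I * (y * ((lam * (T - u) : ℝ) : ℂ)))) := by
      intro y
      have : Complex.exp (I * (y * (lam * T))) * Complex.exp (-((σ + I * (lam * y)) * u)) =
          Complex.exp (-(σ * u)) * Complex.exp (I * (y * ((lam * (T - u) : ℝ) : ℂ))) := by
        rw [← Complex.exp_add, ← Complex.exp_add]
        congr 1
        push_cast
        ring
      linear_combination ((1 - |y| : ℝ) : ℂ) * ((av f u : ℂ) - A) * this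
    simp_rw [e2]
    rw [integral_const_mul, ← intervalIntegral.integral_of_le (by norm_num), tri_fourier]
    push_cast
    rfl
  · have h1 : Integrable (fun p : ℝ × ℝ => (1 : ℝ) * ((C + |A|) * Real.exp ((-σ) * p.2)))
        ((volume.restrict (Ioc (-1 : ℝ) 1)).prod (volume.restrict (Ioi (0 : ℝ)))) := by
      refine Integrable.mul_prod (f := fun _ : ℝ => (1 : ℝ))
        (g := fun u : ℝ => (C + |A|) * Real.exp ((-σ) * u)) ?_ ?_
      · simp
      · exact (integrableOn_exp_mul_Ioi (by linarith) 0).const_mul _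
    have hmeas : AEStronglyMeasurable (Function.uncurry fun (y u : ℝ) =>
        ((1 - |y| : ℝ) : ℂ) * Complex.exp (I * (y * (lam * T))) *
        (((av f u : ℂ) - A) * Complex.exp (-((σ + I * (lam * y)) * u))))
        ((volume.restrict (Ioc (-1 : ℝ) 1)).prod (volume.restrict (Ioi (0 : ℝ)))) := by
      apply Measurable.aestronglyMeasurable
      have hav := av_measurable hf
      unfold Function.uncurry
      refine Measurable.mul (by fun_prop) (Measurable.mul ?_ (by fun_prop))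
      exact (Complex.measurable_ofReal.comp (hav.comp measurable_snd)).sub_const _
    refine Integrable.mono' h1 hmeas ?_
    have hae : ∀ᵐ p : ℝ × ℝ ∂((volume.restrict (Ioc (-1 : ℝ) 1)).prod
        (volume.restrict (Ioi (0 : ℝ)))), p ∈ Ioc (-1 : ℝ) 1 ×ˢ Ioi (0 : ℝ) := by
      rw [Measure.prod_restrict]
      exact ae_restrict_mem (measurableSet_Ioc.prod measurableSet_Ioi)
    filter_upwards [hae] with p hp
    obtain ⟨y, u⟩ := p
    simp only [mem_prod, mem_Ioc, mem_Ioi] at hp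
    simp only [Function.uncurry]
    rw [norm_mul, norm_mul, norm_mul, Complex.norm_real, Complex.norm_exp, Complex.norm_exp]
    have r1 : (I * ((y : ℂ) * (lam * T))).re = 0 := by simp
    have r2 : (-(((σ : ℂ) + I * (lam * y)) * u)).re = (-σ) * u := by simp
    rw [r1, r2, Real.exp_zero, mul_one]
    have h2 : ‖(1 - |y| : ℝ)‖ ≤ 1 := by
      have : |y| ≤ 1 := abs_le.2 ⟨hp.1.1.le, hp.1.2⟩
      rw [Real.norm_of_nonneg (by linarith)]
      linarith [abs_nonneg y]
    have h3 : ‖((av f u : ℂ) - A)‖ ≤ C + |A| := by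
      refine (norm_sub_le _ _).trans ?_
      rw [Complex.norm_real, Complex.norm_real, Real.norm_of_nonneg (av_nonneg hf u)]
      exact add_le_add (av_le hC0 hC u) le_rfl
    have h4 := Real.exp_pos ((-σ) * u)
    have h5 : 0 ≤ C + |A| := by positivity
    apply mul_le_mul h2 (mul_le_mul_of_nonneg_right h3 h4.le) (by positivity) zero_le_one

/-- The identity in the limit `σ → 0`. -/
lemma limit_id {f : ℕ → ℝ} (hf : ∀ n, 0 ≤ f n) {C : ℝ} (hC0 : 0 ≤ C)
    (hC : ∀ n : ℕ, S f n ≤ C * n) {A : ℝ} {G : ℂ → ℂ}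
    (hG : ∀ s : ℂ, 1 < s.re → G s = LSeries (fun n => (f n : ℂ)) s - A / (s - 1))
    (hGc : ContinuousOn G {s | 1 ≤ s.re})
    {lam : ℝ} (hlam : 0 < lam) (T : ℝ) :
    ∫ y in Ioc (-1 : ℝ) 1, ((1 - |y| : ℝ) : ℂ) * Complex.exp (I * (y * (lam * T))) *
        ((G (1 + I * (lam * y)) - A) / (1 + I * (lam * y))) =
      ((∫ u in Ioi (0 : ℝ), (av f u - A) * K (lam * (T - u)) : ℝ) : ℂ) := by
  -- the function F
  set F : ℝ × ℝ → ℂ := fun p => (G (1 + (p.1 + I * (lam * p.2))) - A) /
    (1 + (p.1 + I * (lam * p.2))) with hF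
  have hFc : ContinuousOn F (Icc (0 : ℝ) 1 ×ˢ Icc (-1 : ℝ) 1) := by
    apply ContinuousOn.div
    · apply ContinuousOn.sub _ continuousOn_const
      apply hGc.comp (by fun_prop)
      rintro ⟨a, b⟩ ⟨ha, hb⟩
      simp only [mem_ofPred_eq]
      simp
      exact ha.1
    · fun_prop
    · rintro ⟨a, b⟩ ⟨ha, hb⟩ h0
      have : (1 + ((a : ℂ) + I * (lam * b))).re = 0 := by
        simp only at h0
        rw [h0]; simp
      simp at this
      have := ha.1
      simp only at this
      linarith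
  obtain ⟨M, hM⟩ := (isCompact_Icc.prod isCompact_Icc).exists_bound_of_continuousOn hFc
  -- LHS convergence
  have hl : Tendsto (fun σ : ℝ => ∫ y in Ioc (-1 : ℝ) 1,
      ((1 - |y| : ℝ) : ℂ) * Complex.exp (I * (y * (lam * T))) * F (σ, y)) (𝓝[>] 0)
      (𝓝 (∫ y in Ioc (-1 : ℝ) 1,
        ((1 - |y| : ℝ) : ℂ) * Complex.exp (I * (y * (lam * T))) * F (0, y))) := by
    refine tendsto_integral_filter_of_dominated_convergence (fun _ => M) ?_ ?_ ?_ ?_
    · have : Ioc (0 : ℝ) 1 ∈ 𝓝[>] (0 : ℝ) := Ioc_mem_nhdsGT zero_lt_one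
      filter_upwards [this] with σ hσ
      apply ContinuousOn.aestronglyMeasurable _ measurableSet_Ioc
      apply ContinuousOn.mul (by fun_prop)
      apply hFc.comp (by fun_prop)
      intro y hy
      exact ⟨⟨hσ.1.le, hσ.2⟩, ⟨hy.1.le, hy.2⟩⟩
    · have : Ioc (0 : ℝ) 1 ∈ 𝓝[>] (0 : ℝ) := Ioc_mem_nhdsGT zero_lt_one
      filter_upwards [this] with σ hσ
      filter_upwards [ae_restrict_mem measurableSet_Ioc] with y hy
      rw [norm_mul, norm_mul, Complex.norm_real, Complex.norm_exp]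
      have r1 : (I * ((y : ℂ) * (lam * T))).re = 0 := by simp
      rw [r1, Real.exp_zero, mul_one]
      have h2 : ‖(1 - |y| : ℝ)‖ ≤ 1 := by
        have : |y| ≤ 1 := abs_le.2 ⟨hy.1.le, hy.2⟩
        rw [Real.norm_of_nonneg (by linarith)]
        linarith [abs_nonneg y]
      have h3 := hM (σ, y) ⟨⟨hσ.1.le, hσ.2⟩, ⟨hy.1.le, hy.2⟩⟩
      calc _ ≤ 1 * M := mul_le_mul h2 h3 (norm_nonneg _) zero_le_one
        _ = M := one_mul M
    · exact integrable_const M
    · filter_upwards [ae_restrict_mem measurableSet_Ioc] with y hy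
      apply Tendsto.const_mul
      have h1 : ContinuousWithinAt F (Icc (0 : ℝ) 1 ×ˢ Icc (-1 : ℝ) 1) (0, y) :=
        hFc _ ⟨⟨le_rfl, zero_le_one⟩, ⟨hy.1.le, hy.2⟩⟩
      have h2 : Tendsto (fun σ : ℝ => ((σ, y) : ℝ × ℝ)) (𝓝[>] 0)
          (𝓝[Icc (0 : ℝ) 1 ×ˢ Icc (-1 : ℝ) 1] (0, y)) := by
        apply tendsto_nhdsWithin_of_tendsto_nhds_of_eventually_within
        · have : Continuous (fun σ : ℝ => ((σ, y) : ℝ × ℝ)) := by fun_prop
          exact (this.tendsto 0).mono_left nhdsWithin_le_nhds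
        · have : Ioc (0 : ℝ) 1 ∈ 𝓝[>] (0 : ℝ) := Ioc_mem_nhdsGT zero_lt_one
          filter_upwards [this] with σ hσ
          exact ⟨⟨hσ.1.le, hσ.2⟩, ⟨hy.1.le, hy.2⟩⟩
      exact h1.tendsto.comp h2
  -- RHS convergence
  have hr : Tendsto (fun σ : ℝ =>
      ∫ u in Ioi (0 : ℝ), (av f u - A) * Real.exp (-(σ * u)) * K (lam * (T - u))) (𝓝[>] 0)
      (𝓝 (∫ u in Ioi (0 : ℝ), (av f u - A) * K (lam * (T - u)))) := by
    have hKi : Integrable (fun u : ℝ => K (lam * (T - u))) := by
      have h1 := (K_integrable.comp_mul_left' hlam.ne').comp_sub_left T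
      exact h1
    refine tendsto_integral_filter_of_dominated_convergence
      (fun u => (C + |A|) * K (lam * (T - u))) ?_ ?_ ?_ ?_
    · refine Eventually.of_forall fun σ => ?_
      apply Measurable.aestronglyMeasurable
      exact (((av_measurable hf).sub_const _).mul (by fun_prop)).mul
        (K_measurable.comp (by fun_prop))
    · filter_upwards [self_mem_nhdsWithin] with σ hσ
      filter_upwards [ae_restrict_mem measurableSet_Ioi] with u hu
      have hσ' : 0 < σ := hσ
      have hu' : 0 < u := hu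
      rw [norm_mul, norm_mul, Real.norm_of_nonneg (K_nonneg _), Real.norm_of_nonneg
        (Real.exp_pos _).le]
      apply mul_le_mul_of_nonneg_right _ (K_nonneg _)
      have h3 : ‖(av f u - A)‖ ≤ C + |A| := by
        refine (norm_sub_le _ _).trans ?_
        rw [Real.norm_of_nonneg (av_nonneg hf u)]
        exact add_le_add (av_le hC0 hC u) le_rfl
      have h4 : Real.exp (-(σ * u)) ≤ 1 := by
        rw [Real.exp_le_one_iff]
        have := mul_pos hσ' hu'
        linarith
      calc _ ≤ (C + |A|) * 1 := mul_le_mul h3 h4 (Real.exp_pos _).le (by positivity)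
        _ = _ := mul_one _
    · exact (hKi.const_mul _).integrableOn
    · refine Eventually.of_forall fun u => ?_
      have : Continuous fun σ : ℝ => (av f u - A) * Real.exp (-(σ * u)) * K (lam * (T - u)) := by
        fun_prop
      have h2 := (this.tendsto 0).mono_left (nhdsWithin_le_nhds (s := Ioi 0))
      simpa using h2
  have hr' := (Complex.continuous_ofReal.tendsto _).comp hr
  have heq : ∀ᶠ σ : ℝ in 𝓝[>] 0, (∫ y in Ioc (-1 : ℝ) 1,
      ((1 - |y| : ℝ) : ℂ) * Complex.exp (I * (y * (lam * T))) * F (σ, y)) =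
      (Complex.ofReal ∘ fun σ : ℝ =>
      ∫ u in Ioi (0 : ℝ), (av f u - A) * Real.exp (-(σ * u)) * K (lam * (T - u))) σ := by
    filter_upwards [self_mem_nhdsWithin] with σ hσ
    exact fubini_id hf hC0 hC hG hσ lam T
  have := tendsto_nhds_unique (hl.congr' heq) hr'
  rw [← this]
  congr 1
  ext y
  simp [hF]

/-- Riemann–Lebesgue: the smoothed difference tends to zero. -/
lemma smoothed_tendsto {f : ℕ → ℝ} (hf : ∀ n, 0 ≤ f n) {C : ℝ} (hC0 : 0 ≤ C)
    (hC : ∀ n : ℕ, S f n ≤ C * n) {A : ℝ} {G : ℂ → ℂ}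
    (hG : ∀ s : ℂ, 1 < s.re → G s = LSeries (fun n => (f n : ℂ)) s - A / (s - 1))
    (hGc : ContinuousOn G {s | 1 ≤ s.re})
    {lam : ℝ} (hlam : 0 < lam) :
    Tendsto (fun T : ℝ => ∫ u in Ioi (0 : ℝ), (av f u - A) * K (lam * (T - u))) atTop (𝓝 0) := by
  set g : ℝ → ℂ := (Ioc (-1 : ℝ) 1).indicator fun y => ((1 - |y| : ℝ) : ℂ) *
        ((G (1 + I * (lam * y)) - A) / (1 + I * (lam * y))) with hg
  have hRL := Real.tendsto_integral_exp_smul_cocompact g
  have hcomp : Tendsto (fun T : ℝ => -(lam * T) / (2 * Real.pi)) atTop (cocompact ℝ) := by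
    rw [cocompact_eq_atBot_atTop]
    refine Tendsto.mono_right ?_ le_sup_left
    have h1 : (fun T : ℝ => -(lam * T) / (2 * Real.pi)) =
        fun T : ℝ => (-(lam / (2 * Real.pi))) * T := by
      ext T; ring
    rw [h1]
    apply Tendsto.const_mul_atTop_of_neg _ tendsto_id
    have : 0 < lam / (2 * Real.pi) := by positivity
    linarith
  have h2 := hRL.comp hcomp
  have h3 : ∀ T : ℝ, ((fun w : ℝ => ∫ v : ℝ, Real.fourierChar (-(v * w)) • g v) ∘
      fun T : ℝ => -(lam * T) / (2 * Real.pi)) T =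
      ((∫ u in Ioi (0 : ℝ), (av f u - A) * K (lam * (T - u)) : ℝ) : ℂ) := by
    intro T
    rw [← limit_id hf hC0 hC hG hGc hlam T, ← integral_indicator measurableSet_Ioc]
    simp only [Function.comp]
    congr 1
    ext y
    rw [hg]
    by_cases hy : y ∈ Ioc (-1 : ℝ) 1
    · rw [indicator_of_mem hy, indicator_of_mem hy]
      rw [Circle.smul_def, Real.fourierChar_apply, smul_eq_mul]
      have : (((2 * Real.pi * -(y * (-(lam * T) / (2 * Real.pi))) : ℝ) : ℂ) * I) =
          I * (y * (lam * T)) := by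
        push_cast
        have : (Real.pi : ℂ) ≠ 0 := by exact_mod_cast Real.pi_ne_zero
        field_simp
      rw [this]
      ring
    · rw [indicator_of_notMem hy, indicator_of_notMem hy, smul_zero]
  have h4 := h2.congr h3
  have h5 := (Complex.continuous_re.tendsto _).comp h4
  simpa [Function.comp_def] using h5

end

end H20.PNT
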