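import Mathlib

/-!
# Wiener–Ikehara theorem (bounded case), part 1: the Laplace transform
-/

open MeasureTheory Filter Topology Complex Set

namespace H20.PNT

noncomputable section

/-- partial sums of an arithmetic function -/
def S (f : ℕ → ℝ) (x : ℝ) : ℝ := ∑ k ∈ Finset.Icc 1 ⌊x⌋₊, f k

/-- `S (e^t) e^{-t}` -/
def av (f : ℕ → ℝ) (t : ℝ) : ℝ := S f (Real.exp t) * Real.exp (-t)

lemma S_mono {f : ℕ → ℝ} (hf : ∀ n, 0 ≤ f n) : Monotone (S f) := by
  intro x y hxy
  unfold S
  apply Finset.sum_le_sum_of_subset_of_nonneg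
  · exact Finset.Icc_subset_Icc_right (Nat.floor_mono hxy)
  · intro i _ _; exact hf i

lemma S_nonneg {f : ℕ → ℝ} (hf : ∀ n, 0 ≤ f n) (x : ℝ) : 0 ≤ S f x :=
  Finset.sum_nonneg fun i _ => hf i

lemma av_nonneg {f : ℕ → ℝ} (hf : ∀ n, 0 ≤ f n) (t : ℝ) : 0 ≤ av f t :=
  mul_nonneg (S_nonneg hf _) (Real.exp_pos _).le

lemma av_le {f : ℕ → ℝ} {C : ℝ} (hC0 : 0 ≤ C) (hC : ∀ n : ℕ, S f n ≤ C * n) (t : ℝ) :
    av f t ≤ C := by
  have h1 : S f (Real.exp t) ≤ C * Real.exp t := by
    have : S f (Real.exp t) = S f (⌊Real.exp t⌋₊ : ℝ) := by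
      unfold S; simp
    rw [this]
    refine (hC _).trans ?_
    apply mul_le_mul_of_nonneg_left _ hC0
    exact Nat.floor_le (Real.exp_pos _).le
  unfold av
  calc S f (Real.exp t) * Real.exp (-t) ≤ C * Real.exp t * Real.exp (-t) := by
        apply mul_le_mul_of_nonneg_right h1 (Real.exp_pos _).le
    _ = C := by rw [mul_assoc, ← Real.exp_add]; simp

lemma av_measurable {f : ℕ → ℝ} (hf : ∀ n, 0 ≤ f n) : Measurable (av f) := by
  unfold av
  exact ((S_mono hf).measurable.comp Real.measurable_exp).mul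
    (Real.measurable_exp.comp measurable_neg)

/-- slow decrease -/
lemma av_slow {f : ℕ → ℝ} (hf : ∀ n, 0 ≤ f n) {t u : ℝ} (htu : t ≤ u) :
    av f t * Real.exp (t - u) ≤ av f u := by
  unfold av
  have h := S_mono hf (Real.exp_le_exp.2 htu)
  calc S f (Real.exp t) * Real.exp (-t) * Real.exp (t - u)
      = S f (Real.exp t) * Real.exp (-u) := by
        rw [mul_assoc, ← Real.exp_add]; congr 2; ring
    _ ≤ _ := mul_le_mul_of_nonneg_right h (Real.exp_pos _).le

/-- Laplace transform of `av f`. -/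
lemma laplace_av {f : ℕ → ℝ} (hf : ∀ n, 0 ≤ f n) {C : ℝ}
    (hC : ∀ n : ℕ, S f n ≤ C * n) {z : ℂ} (hz : 0 < z.re) :
    LSeries (fun n => (f n : ℂ)) (1 + z) =
      (1 + z) * ∫ u in Ioi (0 : ℝ), (av f u : ℂ) * Complex.exp (-(z * u)) := by
  have h1 := LSeries_eq_mul_integral_of_nonneg f (r := 1) zero_le_one (s := 1 + z)
    (by simpa using hz) ?_ hf
  · rw [h1]
    congr 1
    have himg : Real.exp '' (Ioi 0) = Ioi 1 := by
      ext x
      constructor
      · rintro ⟨y, hy, rfl⟩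
        exact Real.one_lt_exp_iff.2 hy
      · intro hx
        have hx' : (1 : ℝ) < x := hx
        exact ⟨Real.log x, Real.log_pos hx', Real.exp_log (by linarith)⟩
    rw [← himg, integral_image_eq_integral_abs_deriv_smul measurableSet_Ioi
      (fun x _ => (Real.hasDerivAt_exp x).hasDerivWithinAt) Real.exp_injective.injOn]
    refine setIntegral_congr_fun measurableSet_Ioi fun u hu => ?_
    have hpow : ((Real.exp u : ℝ) : ℂ) ^ (-((1 + z) + 1)) = Complex.exp (-(u * (1 + z + 1))) := by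
      rw [Complex.cpow_def_of_ne_zero (by exact_mod_cast (Real.exp_pos u).ne'),
        ← Complex.ofReal_log (Real.exp_pos u).le, Real.log_exp]
      congr 1; ring
    simp only [hpow, abs_of_pos (Real.exp_pos u)]
    rw [Complex.real_smul]
    unfold av S
    push_cast
    have : Complex.exp u * ((∑ k ∈ Finset.Icc 1 ⌊Real.exp u⌋₊, (f k : ℂ)) *
        Complex.exp (-(u * (1 + z + 1)))) = (∑ k ∈ Finset.Icc 1 ⌊Real.exp u⌋₊, (f k : ℂ)) *
        (Complex.exp u * Complex.exp (-(u * (1 + z + 1)))) := by ring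
    rw [this, mul_assoc, ← Complex.exp_add, ← Complex.exp_add]
    congr 2; ring
  · refine Asymptotics.IsBigO.of_bound C (Eventually.of_forall fun n => ?_)
    have h2 := hC n
    have h3 := S_nonneg hf n
    unfold S at h2 h3
    rw [Nat.floor_natCast] at h2 h3
    rw [Real.norm_of_nonneg h3, Real.rpow_one, Real.norm_of_nonneg (Nat.cast_nonneg n)]
    exact h2

/-- integrability of the Laplace integrand -/
lemma integrable_av_exp {f : ℕ → ℝ} (hf : ∀ n, 0 ≤ f n) {C : ℝ} (hC0 : 0 ≤ C)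
    (hC : ∀ n : ℕ, S f n ≤ C * n) {z : ℂ} (hz : 0 < z.re) :
    IntegrableOn (fun u : ℝ => (av f u : ℂ) * Complex.exp (-(z * u))) (Ioi 0) := by
  have h1 : IntegrableOn (fun u : ℝ => C * Real.exp ((-z.re) * u)) (Ioi 0) :=
    (integrableOn_exp_mul_Ioi (by linarith) 0).const_mul C
  refine Integrable.mono' h1 ?_ (Eventually.of_forall fun u => ?_)
  · apply Measurable.aestronglyMeasurable
    exact (Complex.measurable_ofReal.comp (av_measurable hf)).mul (by fun_prop)
  · rw [norm_mul, Complex.norm_real, Real.norm_of_nonneg (av_nonneg hf u), Complex.norm_exp]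
    have : (-(z * (u : ℂ))).re = (-z.re) * u := by simp
    rw [this]
    exact mul_le_mul_of_nonneg_right (av_le hC0 hC u) (Real.exp_pos _).le

/-- the basic identity -/
lemma laplace_sub {f : ℕ → ℝ} (hf : ∀ n, 0 ≤ f n) {C : ℝ} (hC0 : 0 ≤ C)
    (hC : ∀ n : ℕ, S f n ≤ C * n) {A : ℝ} {G : ℂ → ℂ}
    (hG : ∀ s : ℂ, 1 < s.re → G s = LSeries (fun n => (f n : ℂ)) s - A / (s - 1))
    {z : ℂ} (hz : 0 < z.re) :
    ∫ u in Ioi (0 : ℝ), ((av f u : ℂ) - A) * Complex.exp (-(z * u)) =
      (G (1 + z) - A) / (1 + z) := by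
  have hz0 : z ≠ 0 := fun h => by simp [h] at hz
  have hz1 : 1 + z ≠ 0 := fun h => by
    have : (1 + z).re = 0 := by rw [h]; simp
    simp at this; linarith
  have e1 := laplace_av hf hC hz
  have e2 := hG (1 + z) (by simpa using hz)
  have e3 : ∫ u in Ioi (0 : ℝ), (A : ℂ) * Complex.exp (-(z * u)) = A / z := by
    rw [integral_const_mul]
    have h4 := integral_exp_mul_complex_Ioi (a := -z) (by simpa using hz) 0
    have : (fun u : ℝ => Complex.exp (-(z * u))) = fun u : ℝ => Complex.exp (-z * u) := by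
      ext u; congr 1; ring
    rw [this, h4]; simp; ring
  have e4 : IntegrableOn (fun u : ℝ => (A : ℂ) * Complex.exp (-(z * u))) (Ioi 0) := by
    refine Integrable.const_mul ?_ _
    have h4 := integrableOn_exp_mul_complex_Ioi (a := -z) (by simpa using hz) 0
    refine h4.congr_fun (fun u _ => ?_) measurableSet_Ioi
    simp
  have e5 : ∫ u in Ioi (0 : ℝ), ((av f u : ℂ) - A) * Complex.exp (-(z * u)) =
      (∫ u in Ioi (0 : ℝ), (av f u : ℂ) * Complex.exp (-(z * u))) -
        ∫ u in Ioi (0 : ℝ), (A : ℂ) * Complex.exp (-(z * u)) := by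
    rw [← integral_sub (integrable_av_exp hf hC0 hC hz) e4]
    congr 1; ext u; ring
  rw [e5, e3, e2, e1]
  have hz2 : (1 + z - 1) = z := by ring
  rw [hz2]
  field_simp
  ring

end

end H20.PNT
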