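import Pool.Agent.H20.PNT.Ident

/-!
# Wiener–Ikehara theorem, part 4: the Tauberian argument
-/

open MeasureTheory Filter Topology Complex Set

namespace H20.PNT

noncomputable section

/-- total mass of the kernel -/
def KI : ℝ := ∫ u, K u

lemma KI_pos : 0 < KI := K_integral_pos

/-- mass of `[-B,B]` -/
def KJ (B : ℝ) : ℝ := ∫ u in (-B)..B, K u

lemma KJ_tendsto : Tendsto (fun n : ℕ => KJ ((n : ℝ) + 1)) atTop (𝓝 KI) := by
  unfold KJ KI
  refine intervalIntegral_tendsto_integral K_integrable ?_ ?_
  · exact tendsto_neg_atTop_atBot.comp (tendsto_atTop_add_const_right _ _ tendsto_natCast_atTop_atTop)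
  · exact tendsto_atTop_add_const_right _ _ tendsto_natCast_atTop_atTop

lemma K_shift_integrable {lam : ℝ} (hlam : 0 < lam) (T : ℝ) :
    Integrable (fun u : ℝ => K (lam * (T - u))) :=
  (K_integrable.comp_mul_left' hlam.ne').comp_sub_left T

lemma K_shift_total {lam : ℝ} (hlam : 0 < lam) (T : ℝ) :
    ∫ u, K (lam * (T - u)) = KI / lam := by
  have h1 : ∫ u, K (lam * (T - u)) = ∫ u, K (lam * u) :=
    integral_sub_left_eq_self (fun u => K (lam * u)) volume T
  rw [h1, Measure.integral_comp_mul_left, abs_of_pos (inv_pos.2 hlam), smul_eq_mul]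
  unfold KI
  ring

lemma K_shift_Ioc {lam : ℝ} (hlam : 0 < lam) (T B : ℝ) (hB : 0 ≤ B) :
    ∫ u in Ioc (T - B / lam) (T + B / lam), K (lam * (T - u)) = KJ B / lam := by
  rw [← intervalIntegral.integral_of_le (by
    have : 0 ≤ B / lam := by positivity
    linarith)]
  have h1 := intervalIntegral.integral_comp_sub_left (a := T - B / lam) (b := T + B / lam)
    (fun u => K (lam * u)) T
  rw [h1, intervalIntegral.integral_comp_mul_left _ hlam.ne']
  unfold KJ
  rw [smul_eq_mul]
  have e1 : lam * (T - (T + B / lam)) = -B := by field_simp; ring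
  have e2 : lam * (T - (T - B / lam)) = B := by field_simp; ring
  rw [e1, e2]
  ring

/-- mass of `K` on the half line tends to the total mass. -/
lemma K_half_tendsto {lam : ℝ} (hlam : 0 < lam) :
    Tendsto (fun T : ℝ => ∫ u in Ioi (0 : ℝ), K (lam * (T - u))) atTop (𝓝 (KI / lam)) := by
  have h1 : ∀ T : ℝ, ∫ u in Ioi (0 : ℝ), K (lam * (T - u)) =
      ∫ w in Iio T, K (lam * w) := by
    intro T
    rw [← integral_indicator measurableSet_Ioi, ← integral_indicator measurableSet_Iio]
    rw [← integral_sub_left_eq_self _ volume T]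
    congr 1
    ext u
    by_cases hu : u < T
    · rw [indicator_of_mem (show u ∈ Iio T from hu),
        indicator_of_mem (show T - u ∈ Ioi (0:ℝ) by simp [hu])]
      congr 2; ring
    · rw [indicator_of_notMem (show u ∉ Iio T from hu),
        indicator_of_notMem (show T - u ∉ Ioi (0:ℝ) by simpa using hu)]
  simp_rw [h1]
  have h2 : ∫ w, K (lam * w) = KI / lam := by
    have := K_shift_total hlam 0
    have h3 : ∫ u, K (lam * (0 - u)) = ∫ u, K (lam * u) := by
      congr 1; ext u
      rw [zero_sub, mul_neg, K_even]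
    rw [← h3, this]
  rw [← h2]
  exact (aecover_Iio (μ := volume) tendsto_id).integral_tendsto_of_countably_generated
    (K_integrable.comp_mul_left' hlam.ne')

lemma av_K_integrable {f : ℕ → ℝ} (hf : ∀ n, 0 ≤ f n) {C : ℝ} (hC0 : 0 ≤ C)
    (hC : ∀ n : ℕ, S f n ≤ C * n) {lam : ℝ} (hlam : 0 < lam) (T : ℝ) :
    Integrable (fun u : ℝ => av f u * K (lam * (T - u))) := by
  refine Integrable.mono' ((K_shift_integrable hlam T).const_mul C) ?_
    (Eventually.of_forall fun u => ?_)
  · apply Measurable.aestronglyMeasurable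
    exact (av_measurable hf).mul (K_measurable.comp (by fun_prop))
  · rw [Real.norm_of_nonneg (mul_nonneg (av_nonneg hf _) (K_nonneg _))]
    exact mul_le_mul_of_nonneg_right (av_le hC0 hC u) (K_nonneg _)

/-- upper estimate -/
lemma av_upper {f : ℕ → ℝ} (hf : ∀ n, 0 ≤ f n) {C : ℝ} (hC0 : 0 ≤ C)
    (hC : ∀ n : ℕ, S f n ≤ C * n) {lam B T : ℝ} (hlam : 0 < lam) (hB : 0 ≤ B) (hT : 0 ≤ T) :
    av f T * Real.exp (-(2 * B / lam)) * (KJ B / lam) ≤
      ∫ u in Ioi (0 : ℝ), av f u * K (lam * ((T + B / lam) - u)) := by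
  have hBl : 0 ≤ B / lam := by positivity
  have hsub : Ioc ((T + B / lam) - B / lam) ((T + B / lam) + B / lam) ⊆ Ioi (0 : ℝ) := by
    intro u hu
    have := hu.1
    simp only [mem_Ioi]
    linarith
  calc av f T * Real.exp (-(2 * B / lam)) * (KJ B / lam)
      = ∫ u in Ioc ((T + B / lam) - B / lam) ((T + B / lam) + B / lam),
          (av f T * Real.exp (-(2 * B / lam))) * K (lam * ((T + B / lam) - u)) := by
        rw [integral_const_mul, K_shift_Ioc hlam _ _ hB]
    _ ≤ ∫ u in Ioc ((T + B / lam) - B / lam) ((T + B / lam) + B / lam),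
          av f u * K (lam * ((T + B / lam) - u)) := by
        apply setIntegral_mono_on
        · exact ((K_shift_integrable hlam _).const_mul _).integrableOn
        · exact (av_K_integrable hf hC0 hC hlam _).integrableOn
        · exact measurableSet_Ioc
        · intro u hu
          apply mul_le_mul_of_nonneg_right _ (K_nonneg _)
          have h1 := hu.1
          have h2 := hu.2
          have h3 := av_slow hf (t := T) (u := u) (by linarith)
          refine le_trans ?_ h3
          apply mul_le_mul_of_nonneg_left _ (av_nonneg hf _)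
          rw [Real.exp_le_exp]
          have : 2 * B / lam = 2 * (B / lam) := by ring
          rw [this]
          linarith
    _ ≤ _ := by
        apply setIntegral_mono_set
        · exact (av_K_integrable hf hC0 hC hlam _).integrableOn
        · exact Eventually.of_forall fun u => mul_nonneg (av_nonneg hf _) (K_nonneg _)
        · exact hsub.eventuallyLE

/-- lower estimate -/
lemma av_lower {f : ℕ → ℝ} (hf : ∀ n, 0 ≤ f n) {C : ℝ} (hC0 : 0 ≤ C)
    (hC : ∀ n : ℕ, S f n ≤ C * n) {lam B T : ℝ} (hlam : 0 < lam) (hB : 0 ≤ B) :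
      ∫ u in Ioi (0 : ℝ), av f u * K (lam * ((T - B / lam) - u)) ≤
    av f T * Real.exp (2 * B / lam) * (KJ B / lam) + C * ((KI - KJ B) / lam) := by
  have hBl : 0 ≤ B / lam := by positivity
  set W := Ioc ((T - B / lam) - B / lam) ((T - B / lam) + B / lam) with hW
  have hWm : MeasurableSet W := measurableSet_Ioc
  have hint := av_K_integrable hf hC0 hC hlam (T - B / lam)
  have hKint := K_shift_integrable hlam (T - B / lam)
  calc ∫ u in Ioi (0 : ℝ), av f u * K (lam * ((T - B / lam) - u))
      ≤ ∫ u, av f u * K (lam * ((T - B / lam) - u)) := by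
        apply setIntegral_le_integral hint
        exact Eventually.of_forall fun u => mul_nonneg (av_nonneg hf _) (K_nonneg _)
    _ = (∫ u in W, av f u * K (lam * ((T - B / lam) - u))) +
        ∫ u in Wᶜ, av f u * K (lam * ((T - B / lam) - u)) :=
        (integral_add_compl hWm hint).symm
    _ ≤ (∫ u in W, (av f T * Real.exp (2 * B / lam)) * K (lam * ((T - B / lam) - u))) +
        ∫ u in Wᶜ, C * K (lam * ((T - B / lam) - u)) := by
        apply add_le_add
        · apply setIntegral_mono_on hint.integrableOn (hKint.const_mul _).integrableOn hWm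
          intro u hu
          apply mul_le_mul_of_nonneg_right _ (K_nonneg _)
          have h1 := hu.1
          have h2 := hu.2
          have h3 := av_slow hf (t := u) (u := T) (by linarith)
          have h4 : av f u ≤ av f T * Real.exp (T - u) := by
            calc av f u = av f u * Real.exp (u - T) * Real.exp (T - u) := by
                  rw [mul_assoc, ← Real.exp_add]; simp
              _ ≤ _ := mul_le_mul_of_nonneg_right h3 (Real.exp_pos _).le
          refine h4.trans ?_
          apply mul_le_mul_of_nonneg_left _ (av_nonneg hf _)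
          rw [Real.exp_le_exp]
          have : 2 * B / lam = 2 * (B / lam) := by ring
          rw [this]
          linarith
        · apply setIntegral_mono_on hint.integrableOn (hKint.const_mul _).integrableOn hWm.compl
          intro u _
          exact mul_le_mul_of_nonneg_right (av_le hC0 hC u) (K_nonneg _)
    _ = _ := by
        rw [integral_const_mul, integral_const_mul, hW, K_shift_Ioc hlam _ _ hB]
        congr 2
        have h1 := integral_add_compl hWm hKint
        rw [K_shift_total hlam, hW, K_shift_Ioc hlam _ _ hB] at h1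
        rw [sub_div]
        linarith

/-- **Wiener–Ikehara theorem** for arithmetic functions with linearly bounded partial sums. -/
theorem wiener_ikehara {f : ℕ → ℝ} (hf : ∀ n, 0 ≤ f n) {C : ℝ} (hC0 : 0 ≤ C)
    (hC : ∀ n : ℕ, S f n ≤ C * n) {A : ℝ} {G : ℂ → ℂ}
    (hG : ∀ s : ℂ, 1 < s.re → G s = LSeries (fun n => (f n : ℂ)) s - A / (s - 1))
    (hGc : ContinuousOn G {s | 1 ≤ s.re}) :
    Tendsto (av f) atTop (𝓝 A) := by
  -- the smoothed averages converge
  have key : ∀ lam : ℝ, 0 < lam → Tendsto (fun T : ℝ =>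
      ∫ u in Ioi (0 : ℝ), av f u * K (lam * (T - u))) atTop (𝓝 (A * (KI / lam))) := by
    intro lam hlam
    have h1 := smoothed_tendsto hf hC0 hC hG hGc hlam
    have h2 := (K_half_tendsto hlam).const_mul A
    have h3 := h1.add h2
    rw [zero_add] at h3
    refine h3.congr fun T => ?_
    rw [← integral_const_mul, ← integral_add]
    · congr 1; ext u; ring
    · have h4 := (av_K_integrable hf hC0 hC hlam T).sub ((K_shift_integrable hlam T).const_mul A)
      refine Integrable.integrableOn ?_
      refine h4.congr (Eventually.of_forall fun u => ?_)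
      simp only [Pi.sub_apply]
      ring
    · exact ((K_shift_integrable hlam T).const_mul A).integrableOn
  have hKI := KI_pos
  -- convergence of the comparison sequences
  have hinv : Tendsto (fun n : ℕ => ((n : ℝ) + 1)⁻¹) atTop (𝓝 0) := by
    have := tendsto_one_div_add_atTop_nhds_zero_nat (𝕜 := ℝ)
    simpa using this
  have hexp : Tendsto (fun n : ℕ => Real.exp (2 * ((n : ℝ) + 1)⁻¹)) atTop (𝓝 1) := by
    have h := (Real.continuous_exp.tendsto _).comp (hinv.const_mul 2)
    simpa [Function.comp_def] using h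
  have hup : Tendsto (fun n : ℕ => Real.exp (2 * ((n : ℝ) + 1)⁻¹) * (A * KI + ((n : ℝ) + 1)⁻¹) /
      KJ ((n : ℝ) + 1)) atTop (𝓝 A) := by
    have h := (hexp.mul (hinv.const_add (A * KI))).div KJ_tendsto hKI.ne'
    have e : 1 * (A * KI + 0) / KI = A := by field_simp; ring
    rwa [e] at h
  have hlo : Tendsto (fun n : ℕ => (A * KI - ((n : ℝ) + 1)⁻¹ - C * (KI - KJ ((n : ℝ) + 1))) /
      (Real.exp (2 * ((n : ℝ) + 1)⁻¹) * KJ ((n : ℝ) + 1))) atTop (𝓝 A) := by
    have h := ((hinv.const_sub (A * KI)).sub
      ((KJ_tendsto.const_sub KI).const_mul C)).div (hexp.mul KJ_tendsto) (by simpa using hKI.ne')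
    have e : (A * KI - 0 - C * (KI - KI)) / (1 * KI) = A := by field_simp; ring
    rwa [e] at h
  have hKJpos : ∀ᶠ n : ℕ in atTop, 0 < KJ ((n : ℝ) + 1) :=
    KJ_tendsto.eventually (lt_mem_nhds hKI)
  rw [tendsto_order]
  constructor
  · intro b hb
    obtain ⟨n, hn1, hn2⟩ := ((hlo.eventually (lt_mem_nhds hb)).and hKJpos).exists
    set m : ℝ := (n : ℝ) + 1 with hm
    have hm0 : 0 < m := by positivity
    have hlam : 0 < m ^ 2 := by positivity
    have h1 := key (m ^ 2) hlam
    have h2 : Tendsto (fun T : ℝ => T - m / m ^ 2) atTop atTop :=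
      tendsto_atTop_add_const_right _ _ tendsto_id
    have h3 := h1.comp h2
    have hlt : (A * KI - m⁻¹) / m ^ 2 < A * (KI / m ^ 2) := by
      rw [← mul_div_assoc]
      apply div_lt_div_of_pos_right _ hlam
      have := inv_pos.2 hm0
      linarith
    filter_upwards [h3.eventually (lt_mem_nhds hlt)] with T hT
    have h4 := av_lower hf hC0 hC (B := m) (T := T) hlam hm0.le
    simp only [Function.comp] at hT
    have h5 := hT.trans_le h4
    have e1 : 2 * m / m ^ 2 = 2 * m⁻¹ := by field_simp
    rw [e1] at h5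
    have h6 : A * KI - m⁻¹ < av f T * Real.exp (2 * m⁻¹) * KJ m + C * (KI - KJ m) := by
      have h7 := mul_lt_mul_of_pos_right h5 hlam
      have e2 : (A * KI - m⁻¹) / m ^ 2 * m ^ 2 = A * KI - m⁻¹ := by field_simp
      have e3 : (av f T * Real.exp (2 * m⁻¹) * (KJ m / m ^ 2) + C * ((KI - KJ m) / m ^ 2)) * m ^ 2 =
        av f T * Real.exp (2 * m⁻¹) * KJ m + C * (KI - KJ m) := by field_simp
      rwa [e2, e3] at h7
    refine hn1.trans ?_
    rw [div_lt_iff₀ (by positivity)]
    linarith
  · intro b hb
    obtain ⟨n, hn1, hn2⟩ := ((hup.eventually (gt_mem_nhds hb)).and hKJpos).exists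
    set m : ℝ := (n : ℝ) + 1 with hm
    have hm0 : 0 < m := by positivity
    have hlam : 0 < m ^ 2 := by positivity
    have h1 := key (m ^ 2) hlam
    have h2 : Tendsto (fun T : ℝ => T + m / m ^ 2) atTop atTop :=
      tendsto_atTop_add_const_right _ _ tendsto_id
    have h3 := h1.comp h2
    have hlt : A * (KI / m ^ 2) < (A * KI + m⁻¹) / m ^ 2 := by
      rw [← mul_div_assoc]
      apply div_lt_div_of_pos_right _ hlam
      have := inv_pos.2 hm0
      linarith
    filter_upwards [h3.eventually (gt_mem_nhds hlt), eventually_ge_atTop 0] with T hT hT0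
    have h4 := av_upper hf hC0 hC (B := m) (T := T) hlam hm0.le hT0
    simp only [Function.comp] at hT
    have h5 := h4.trans_lt hT
    have e1 : 2 * m / m ^ 2 = 2 * m⁻¹ := by field_simp
    rw [e1] at h5
    have h6 : av f T * Real.exp (-(2 * m⁻¹)) * KJ m < A * KI + m⁻¹ := by
      have h7 := mul_lt_mul_of_pos_right h5 hlam
      have e2 : (A * KI + m⁻¹) / m ^ 2 * m ^ 2 = A * KI + m⁻¹ := by field_simp
      have e3 : (av f T * Real.exp (-(2 * m⁻¹)) * (KJ m / m ^ 2)) * m ^ 2 =
        av f T * Real.exp (-(2 * m⁻¹)) * KJ m := by field_simp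
      rwa [e2, e3] at h7
    refine lt_trans ?_ hn1
    rw [lt_div_iff₀ hn2]
    have h8 : av f T * KJ m = Real.exp (2 * m⁻¹) *
        (av f T * Real.exp (-(2 * m⁻¹)) * KJ m) := by
      have : Real.exp (2 * m⁻¹) * Real.exp (-(2 * m⁻¹)) = 1 := by
        rw [← Real.exp_add]; simp
      linear_combination (-(av f T * KJ m)) * this
    rw [h8]
    exact mul_lt_mul_of_pos_left h6 (Real.exp_pos _)

end

end H20.PNT
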